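import Pool.Agent.H79.GT.Targets
import Pool.Agent.H68.GD.M_PF

/-!
# bq_modules, row TRI: the change of the average of a layer along a chord
-/

set_option autoImplicit false

namespace Pool.Agent.H68.BQ

open MeasureTheory Set Filter Topology Pool.Agent.H79.GT
open Pool.Agent.H44.DU

/-- The tent average, bounded by a majorant. -/
theorem av_bound {x R : ℝ} (hR : 0 < R) (φ : ℝ → ℂ) (D : ℝ → ℝ) (hD0 : ∀ y, 0 ≤ D y)
    (hDi : IntegrableOn D (Ioo (x - 3 / 4 * R) (x + 3 / 4 * R)))
    (h : ∀ᵐ y : ℝ, x - R / 2 < y → y < x + R / 2 → ‖φ y‖ ≤ D y) :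
    ‖∫ v in Ioo (-1 : ℝ) 1, ((1 - |v| : ℝ) : ℂ) * φ (x + R / 2 * v)‖ ≤
      2 * (R⁻¹ * ∫ y in Ioo (x - 3 / 4 * R) (x + 3 / 4 * R), D y) := by
  have hR2 : R / 2 ≠ 0 := by positivity
  have e1 : ∫ v in Ioo (-1 : ℝ) 1, ((1 - |v| : ℝ) : ℂ) * φ (x + R / 2 * v) =
      (R / 2)⁻¹ • ∫ y in Ioo (x - R / 2) (x + R / 2),
        ((1 - |(y - x) / (R / 2)| : ℝ) : ℂ) * φ y := by
    rw [← integral_Ioc_eq_integral_Ioo, ← integral_Ioc_eq_integral_Ioo,
      ← intervalIntegral.integral_of_le (by norm_num), ← intervalIntegral.integral_of_le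
        (by linarith)]
    have h1 := intervalIntegral.integral_comp_mul_add (a := -1) (b := 1)
      (fun y => ((1 - |(y - x) / (R / 2)| : ℝ) : ℂ) * φ y) hR2 x
    rw [show R / 2 * -1 + x = x - R / 2 by ring, show R / 2 * 1 + x = x + R / 2 by ring] at h1
    rw [← h1]
    refine intervalIntegral.integral_congr fun v _ => ?_
    have h2 : (R / 2 * v + x - x) / (R / 2) = v := by
      field_simp
      ring
    show ((1 - |v| : ℝ) : ℂ) * φ (x + R / 2 * v) =
      ((1 - |(R / 2 * v + x - x) / (R / 2)| : ℝ) : ℂ) * φ (R / 2 * v + x)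
    rw [h2, add_comm x]
  have hsub : Ioo (x - R / 2) (x + R / 2) ⊆ Ioo (x - 3 / 4 * R) (x + 3 / 4 * R) :=
    Ioo_subset_Ioo (by linarith) (by linarith)
  have e2 : ‖∫ y in Ioo (x - R / 2) (x + R / 2),
      ((1 - |(y - x) / (R / 2)| : ℝ) : ℂ) * φ y‖ ≤ ∫ y in Ioo (x - R / 2) (x + R / 2), D y := by
    refine norm_integral_le_of_norm_le (hDi.mono_set hsub) ?_
    rw [ae_restrict_iff' measurableSet_Ioo]
    filter_upwards [h] with y hy hm
    have h3 := hy hm.1 hm.2
    have h4 : |(y - x) / (R / 2)| ≤ 1 := by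
      rw [abs_div, abs_of_pos (show 0 < R / 2 by linarith), div_le_one (by linarith), abs_le]
      exact ⟨by linarith [hm.1], by linarith [hm.2]⟩
    rw [norm_mul, Complex.norm_real, Real.norm_eq_abs, abs_of_nonneg (by linarith)]
    have h5 : 1 - |(y - x) / (R / 2)| ≤ 1 := by linarith [abs_nonneg ((y - x) / (R / 2))]
    calc (1 - |(y - x) / (R / 2)|) * ‖φ y‖ ≤ 1 * ‖φ y‖ :=
          mul_le_mul_of_nonneg_right h5 (norm_nonneg _)
      _ ≤ D y := by rw [one_mul]; exact h3
  have e3 : ∫ y in Ioo (x - R / 2) (x + R / 2), D y ≤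
      ∫ y in Ioo (x - 3 / 4 * R) (x + 3 / 4 * R), D y :=
    setIntegral_mono_set hDi (Eventually.of_forall hD0) hsub.eventuallyLE
  rw [e1, norm_smul, Real.norm_eq_abs, abs_of_pos (by positivity),
    show (R / 2)⁻¹ = 2 * R⁻¹ by field_simp, mul_assoc]
  have h6 : 0 ≤ R⁻¹ := by positivity
  exact mul_le_mul_of_nonneg_left (mul_le_mul_of_nonneg_left (e2.trans e3) h6) (by norm_num)

section

variable {n : ℕ} {S : Surf n} {t : ℝ} {f : Fin n → ℝ → ℝ}

theorem lr_inI {s : Side n} {x : ℝ} (h : S.InI t s x) :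
    le S t s = xi t (S.P s) ∧ ri S t s = xi t (S.Q s) := by
  have h1 : xi t (S.P s) ≤ xi t (S.Q s) := (h.1.trans h.2).le
  unfold le ri
  exact ⟨min_eq_left h1, max_eq_right h1⟩

theorem lr_inJ {s : Side n} {x : ℝ} (h : S.InJ t s x) :
    le S t s = xi t (S.Q s) ∧ ri S t s = xi t (S.P s) := by
  have h1 : xi t (S.Q s) ≤ xi t (S.P s) := (h.1.trans h.2).le
  unfold le ri
  exact ⟨min_eq_right h1, max_eq_left h1⟩

/-- The ball of a point of a side. -/
structure Ball (S : Surf n) (t : ℝ) (f : Fin n → ℝ → ℝ) (r : ℝ) (s : Side n) (x : ℝ) :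
    Prop where
  pos : 0 < Rd S t f r s x
  lef : le S t s ≤ x - Rd S t f r s x
  rig : x + Rd S t f r s x ≤ ri S t s
  mass : S.pf t f s.1 (x + Rd S t f r s x) - S.pf t f s.1 (x - Rd S t f r s x) ≤ r

theorem ball (h : T_RAD) (he : T_EQV) (hLD : S.LD t f) (hS : S.SInc t (S.pf t f)) {r : ℝ}
    (hr : 0 < r) {s : Side n} {x : ℝ} (h1 : le S t s < x) (h2 : x < ri S t s) :
    Ball S t f r s x := by
  have hd := (he n S t f hLD hS).1 s (h1.trans h2)
  obtain ⟨a, b, _, _⟩ := h _ _ _ _ hd r hr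
  obtain ⟨_, a2, a3, a4⟩ := a x h1.le h2.le
  exact ⟨b x h1 h2, a2, a3, a4⟩

theorem Es_meas {r L : ℝ} {θ : Side n → ℝ → ℝ} (hLay : Lay S t f r L θ) (i : Fin n) :
    MeasurableSet (Es S t θ i) := by
  have e : Es S t θ i = ⋃ s : Side n, {x | s.1 = i} ∩
      (({x | S.InI t s x} ∪ {x | S.InJ t s x}) ∩ {x | θ s x < 1}) := by
    ext x
    simp only [Es, mem_ofPred_eq, mem_iUnion, mem_inter_iff, mem_union]
  rw [e]
  refine MeasurableSet.iUnion fun s => ?_
  have a1 : MeasurableSet {x : ℝ | S.InI t s x} := measurableSet_Ioo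
  have a2 : MeasurableSet {x : ℝ | S.InJ t s x} := measurableSet_Ioo
  exact (MeasurableSet.const _).inter ((a1.union a2).inter
    (measurableSet_lt (hLay.meas s) measurable_const))

/-- The chord at a neighbouring point. -/
theorem ch_le (hc : T_CH) (i : Fin n) {x y R : ℝ} (h1 : S.xl t i ≤ x - R)
    (h2 : x + R ≤ S.xr t i) (hR : 0 < R) (hy1 : x - 3 / 4 * R < y) (hy2 : y < x + 3 / 4 * R) :
    ch S t i y ≤ 7 / 4 * ch S t i x := by
  obtain ⟨_, _, _, _, _, c6, c7, _⟩ := hc n S t i
  have hy : y ∈ Icc (S.xl t i) (S.xr t i) := ⟨by linarith, by linarith⟩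
  have hz : x - 4 / 3 * (y - x) ∈ Icc (S.xl t i) (S.xr t i) := ⟨by linarith, by linarith⟩
  have h3 := c7.2 hy hz (show (0 : ℝ) ≤ 4 / 7 by norm_num) (show (0 : ℝ) ≤ 3 / 7 by norm_num)
    (by norm_num)
  simp only [smul_eq_mul] at h3
  rw [show 4 / 7 * y + 3 / 7 * (x - 4 / 3 * (y - x)) = x by ring] at h3
  have h4 := c6 (x - 4 / 3 * (y - x))
  linarith

/-- The majorant. -/
noncomputable def DD (S : Surf n) (t : ℝ) (f : Fin n → ℝ → ℝ) (L : ℝ) (θ : Side n → ℝ → ℝ)
    (i : Fin n) (y : ℝ) : ℝ :=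
  f i y * ch S t i y / L * (Es S t θ i).indicator 1 y

theorem ind_cases (E : Set ℝ) (y : ℝ) :
    E.indicator (1 : ℝ → ℝ) y = 1 ∨ E.indicator (1 : ℝ → ℝ) y = 0 := by
  by_cases h : y ∈ E
  · left
    rw [indicator_of_mem h]
    rfl
  · right
    rw [indicator_of_notMem h]

theorem ind_nonneg (E : Set ℝ) (y : ℝ) : 0 ≤ E.indicator (1 : ℝ → ℝ) y := by
  rcases ind_cases E y with h | h <;> rw [h]
  exact zero_le_one

theorem DD_nonneg (hc : T_CH) (hLD : S.LD t f) {L : ℝ} (hL : 0 < L) (θ : Side n → ℝ → ℝ)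
    (i : Fin n) (y : ℝ) : 0 ≤ DD S t f L θ i y := by
  have h1 := hLD.nonneg i y
  have h2 := (hc n S t i).2.2.2.2.2.1 y
  have h3 := ind_nonneg (Es S t θ i) y
  unfold DD
  positivity

/-- The bounds for the majorant. -/
theorem DD_le (hc : T_CH) (hp : T_PART) (hLD : S.LD t f) {r L : ℝ} (hL : 0 < L)
    {θ : Side n → ℝ → ℝ} (hLay : Lay S t f r L θ) {s : Side n} {x : ℝ} (hB : Ball S t f r s x) :
    IntegrableOn (DD S t f L θ s.1)
      (Ioo (x - 3 / 4 * Rd S t f r s x) (x + 3 / 4 * Rd S t f r s x)) ∧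
    (Rd S t f r s x)⁻¹ * ∫ y in Ioo (x - 3 / 4 * Rd S t f r s x) (x + 3 / 4 * Rd S t f r s x),
      DD S t f L θ s.1 y ≤
      7 / 4 / L * ch S t s.1 x * (f s.1 x * fa (Rd S t f r s) ((Es S t θ s.1).indicator 1) x +
        fa (Rd S t f r s) (fun y => |f s.1 y - f s.1 x|) x) := by
  set R := Rd S t f r s x with hR
  set E := Es S t θ s.1 with hE
  set i := s.1 with hi
  obtain ⟨p1, p2, p3⟩ := (hp n S t).2.2.1 s
  have hxl : S.xl t i ≤ x - R := p1.trans hB.lef
  have hxr : x + R ≤ S.xr t i := hB.rig.trans p3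
  have hR0 : 0 < R := hB.pos
  have hch0 : 0 ≤ ch S t i x := (hc n S t i).2.2.2.2.2.1 x
  have hsub : Ioo (x - 3 / 4 * R) (x + 3 / 4 * R) ⊆ Ioo (S.xl t i) (S.xr t i) :=
    Ioo_subset_Ioo (by linarith) (by linarith)
  have hf : IntegrableOn (f i) (Ioo (x - 3 / 4 * R) (x + 3 / 4 * R)) :=
    (Pool.Agent.H68.GD.ld_int hLD i).mono_set hsub
  have hEm : MeasurableSet E := Es_meas hLay i
  have hfin : volume (Ioo (x - 3 / 4 * R) (x + 3 / 4 * R)) ≠ ⊤ := by simp
  have h1 : IntegrableOn (fun y => f i x * E.indicator 1 y)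
      (Ioo (x - 3 / 4 * R) (x + 3 / 4 * R)) := by
    refine Integrable.const_mul ?_ _
    have h2 : IntegrableOn (fun _ : ℝ => (1 : ℝ)) (Ioo (x - 3 / 4 * R) (x + 3 / 4 * R)) :=
      integrableOn_const hfin
    exact h2.indicator hEm
  have h3 : IntegrableOn (fun y => |f i y - f i x|) (Ioo (x - 3 / 4 * R) (x + 3 / 4 * R)) :=
    (hf.sub (integrableOn_const hfin)).abs
  -- the pointwise bound
  have hpt : ∀ y, x - 3 / 4 * R < y → y < x + 3 / 4 * R →
      DD S t f L θ i y ≤ 7 / 4 / L * ch S t i x *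
        (f i x * E.indicator 1 y + |f i y - f i x|) := by
    intro y hy1 hy2
    have a1 := ch_le hc i hxl hxr hR0 hy1 hy2
    have a2 : f i y ≤ f i x + |f i y - f i x| := by linarith [le_abs_self (f i y - f i x)]
    have a3 := hLD.nonneg i y
    have a4 := hLD.nonneg i x
    have a5 : f i y * ch S t i y / L ≤
        (7 / 4 / L * ch S t i x) * (f i x + |f i y - f i x|) := by
      have b0 : 0 ≤ 7 / 4 * ch S t i x := by positivity
      have b1 : f i y * ch S t i y ≤ (f i x + |f i y - f i x|) * (7 / 4 * ch S t i x) :=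
        mul_le_mul a2 a1 ((hc n S t i).2.2.2.2.2.1 y) (by positivity)
      have b2 := div_le_div_of_nonneg_right b1 hL.le
      calc _ ≤ _ := b2
        _ = _ := by ring
    have a6 : 0 ≤ 7 / 4 / L * ch S t i x := by positivity
    unfold DD
    rw [← hE]
    rcases ind_cases E y with h | h
    · rw [h, mul_one, mul_one]
      exact a5
    · rw [h, mul_zero, mul_zero, zero_add]
      positivity
  have hG : IntegrableOn (fun y => 7 / 4 / L * ch S t i x *
      (f i x * E.indicator 1 y + |f i y - f i x|)) (Ioo (x - 3 / 4 * R) (x + 3 / 4 * R)) :=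
    (h1.add h3).const_mul _
  have hDm : Measurable (DD S t f L θ i) := by
    unfold DD
    have c8 := (hc n S t i).2.2.2.2.2.2.2.1
    exact (((hLD.meas i).mul c8).div_const L).mul (measurable_one.indicator (Es_meas hLay i))
  have hDi : IntegrableOn (DD S t f L θ i) (Ioo (x - 3 / 4 * R) (x + 3 / 4 * R)) := by
    refine hG.mono' hDm.aestronglyMeasurable ?_
    rw [ae_restrict_iff' measurableSet_Ioo]
    refine Eventually.of_forall fun y hy => ?_
    rw [Real.norm_eq_abs, abs_of_nonneg (DD_nonneg hc hLD hL θ i y)]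
    exact hpt y hy.1 hy.2
  refine ⟨hDi, ?_⟩
  have h4 : ∫ y in Ioo (x - 3 / 4 * R) (x + 3 / 4 * R), DD S t f L θ i y ≤
      ∫ y in Ioo (x - 3 / 4 * R) (x + 3 / 4 * R), 7 / 4 / L * ch S t i x *
        (f i x * E.indicator 1 y + |f i y - f i x|) :=
    setIntegral_mono_on hDi hG measurableSet_Ioo fun y hy => hpt y hy.1 hy.2
  have h5 : ∫ y in Ioo (x - 3 / 4 * R) (x + 3 / 4 * R), 7 / 4 / L * ch S t i x *
      (f i x * E.indicator 1 y + |f i y - f i x|) = 7 / 4 / L * ch S t i x *
      (f i x * (∫ y in Ioo (x - 3 / 4 * R) (x + 3 / 4 * R), E.indicator 1 y) +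
        ∫ y in Ioo (x - 3 / 4 * R) (x + 3 / 4 * R), |f i y - f i x|) := by
    rw [integral_const_mul, integral_add h1 h3, integral_const_mul]
  unfold fa
  rw [← hR]
  have h6 := mul_le_mul_of_nonneg_left (h4.trans_eq h5) (inv_nonneg.2 hR0.le)
  refine h6.trans (le_of_eq ?_)
  ring

/-- Points of a ball have a mass distance at most `r`. -/
theorem ball_mass (hLD : S.LD t f) {r : ℝ} {s : Side n} {x y : ℝ} (hB : Ball S t f r s x)
    (h1 : x - Rd S t f r s x / 2 < y) (h2 : y < x + Rd S t f r s x / 2) :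
    |S.pf t f s.1 y - S.pf t f s.1 x| ≤ r := by
  have hm := (Pool.Agent.H68.GD.pf_M_PF' hLD).im.mono s.1
  have hR := hB.pos
  have a1 := hm (show x - Rd S t f r s x ≤ y by linarith)
  have a2 := hm (show y ≤ x + Rd S t f r s x by linarith)
  have a3 := hm (show x - Rd S t f r s x ≤ x by linarith)
  have a4 := hm (show x ≤ x + Rd S t f r s x by linarith)
  rw [abs_le]
  constructor <;> linarith [hB.mass]

/-- A point near a point of the zone of a side is in a double zone. -/
theorem zone2 (hLD : S.LD t f) {r : ℝ} (hr : 0 < r) {s' s'' : Side n} {x y : ℝ}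
    (hd : |S.pf t f s''.1 y - S.pf t f s''.1 x| ≤ r) (hz : Zn (S.pf t f s'.1) (le S t s') (ri S t s') r x)
    (h : s'' = s' ∨ ¬ (le S t s'' < x ∧ x < ri S t s'')) :
    Zn (S.pf t f s''.1) (le S t s'') (ri S t s'') (2 * r) y := by
  have hm := (Pool.Agent.H68.GD.pf_M_PF' hLD).im.mono s''.1
  rw [abs_le] at hd
  unfold Zn at hz ⊢
  rcases h with h | h
  · subst h
    rcases hz with hz | hz
    · left
      linarith
    · right
      linarith
  · rcases le_or_gt x (le S t s'') with h3 | h3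
    · left
      have := hm h3
      linarith
    · have h4 : ri S t s'' ≤ x := by
        by_contra h5
        exact h ⟨h3, not_le.1 h5⟩
      right
      have := hm h4
      linarith

end

theorem pf_TRI (h : T_RAD) (hz : T_ZON) (hc : T_CH) (hp : T_PART) (he : T_EQV) : T_TRI := by
  intro n S t f hLD hS r L θ hr hL hLay s s' hss x hI hJ
  obtain ⟨hl, hri⟩ := lr_inI hI
  obtain ⟨hl', hri'⟩ := lr_inJ hJ
  have hx1 : le S t s < x := by rw [hl]; exact hI.1
  have hx2 : x < ri S t s := by rw [hri]; exact hI.2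
  have hx1' : le S t s' < x := by rw [hl']; exact hJ.1
  have hx2' : x < ri S t s' := by rw [hri']; exact hJ.2
  have hB := ball h he hLD hS hr hx1 hx2
  have hB' := ball h he hLD hS hr hx1' hx2'
  obtain ⟨hDi, hDle⟩ := DD_le hc hp hLD hL hLay hB
  obtain ⟨hDi', hDle'⟩ := DD_le hc hp hLD hL hLay hB'
  rw [← hss] at hDi' hDle'
  have hD0 := DD_nonneg hc hLD hL θ s.1
  obtain ⟨z1, z2⟩ := hz n S t f hLD hS r hr
  -- inside the balls
  have hin : ∀ y, x - Rd S t f r s x / 2 < y → y < x + Rd S t f r s x / 2 → S.InI t s y := by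
    intro y h1 h2
    have := hB.pos
    have := hB.lef
    have := hB.rig
    exact ⟨by rw [← hl]; linarith, by rw [← hri]; linarith⟩
  have hin' : ∀ y, x - Rd S t f r s' x / 2 < y → y < x + Rd S t f r s' x / 2 →
      S.InJ t s' y := by
    intro y h1 h2
    have := hB'.pos
    have := hB'.lef
    have := hB'.rig
    exact ⟨by rw [← hl']; linarith, by rw [← hri']; linarith⟩
  have hrange : ∀ y, S.InI t s y → S.xl t s.1 < y ∧ y < S.xr t s.1 := by
    intro y hy
    obtain ⟨p1, _, p3⟩ := (hp n S t).2.2.1 s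
    rw [hl] at p1
    rw [hri] at p3
    exact ⟨p1.trans_lt hy.1, hy.2.trans_le p3⟩
  have hrange' : ∀ y, S.InJ t s' y → S.xl t s.1 < y ∧ y < S.xr t s.1 := by
    intro y hy
    obtain ⟨p1, _, p3⟩ := (hp n S t).2.2.1 s'
    rw [hl', ← hss] at p1
    rw [hri', ← hss] at p3
    exact ⟨p1.trans_lt hy.1, hy.2.trans_le p3⟩
  have hstep : ∀ᵐ y : ℝ, ∀ a b : Side n, a.1 = b.1 → S.InI t a y → S.InJ t b y →
      |θ a y - θ b y| ≤ f a.1 y * ch S t a.1 y / L := by
    rw [ae_all_iff]
    intro a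
    rw [ae_all_iff]
    intro b
    by_cases hab : a.1 = b.1
    · filter_upwards [hLay.step a b hab] with y hy _ h1 h2
      exact hy h1 h2
    · exact Eventually.of_forall fun y h1 => absurd h1 hab
  have hpart := (hp n S t).1 s.1
  have hnn : 0 ≤ ch S t s.1 x := (hc n S t s.1).2.2.2.2.2.1 x
  -- nonnegativity of the right sides
  have hr1 : 0 ≤ (Rd S t f r s x)⁻¹ * ∫ y in Ioo (x - 3 / 4 * Rd S t f r s x)
      (x + 3 / 4 * Rd S t f r s x), DD S t f L θ s.1 y :=
    mul_nonneg (inv_nonneg.2 hB.pos.le) (integral_nonneg hD0)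
  have hr2 : 0 ≤ (Rd S t f r s' x)⁻¹ * ∫ y in Ioo (x - 3 / 4 * Rd S t f r s' x)
      (x + 3 / 4 * Rd S t f r s' x), DD S t f L θ s.1 y :=
    mul_nonneg (inv_nonneg.2 hB'.pos.le) (integral_nonneg hD0)
  -- the claim
  have claim : ‖av (Rd S t f r s) (fun y => (θ s y : ℂ)) x -
      av (Rd S t f r s') (fun y => (θ s' y : ℂ)) x‖ ≤
      2 * ((Rd S t f r s x)⁻¹ * ∫ y in Ioo (x - 3 / 4 * Rd S t f r s x)
        (x + 3 / 4 * Rd S t f r s x), DD S t f L θ s.1 y) +
      2 * ((Rd S t f r s' x)⁻¹ * ∫ y in Ioo (x - 3 / 4 * Rd S t f r s' x)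
        (x + 3 / 4 * Rd S t f r s' x), DD S t f L θ s.1 y) := by
    by_cases hZ : Zn (S.pf t f s.1) (le S t s) (ri S t s) r x
    · have k1 := z1 L θ hL hLay s x hx1 hx2 hZ
      by_cases hZ' : Zn (S.pf t f s'.1) (le S t s') (ri S t s') r x
      · -- both
        have k2 := z1 L θ hL hLay s' x hx1' hx2' hZ'
        rw [k1, k2, sub_zero, norm_zero]
        linarith
      · -- only `s`
        rw [k1, zero_sub, norm_neg]
        have k3 : ‖av (Rd S t f r s') (fun y => (θ s' y : ℂ)) x‖ ≤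
            2 * ((Rd S t f r s' x)⁻¹ * ∫ y in Ioo (x - 3 / 4 * Rd S t f r s' x)
            (x + 3 / 4 * Rd S t f r s' x), DD S t f L θ s.1 y) := by
          refine av_bound hB'.pos (fun y => (θ s' y : ℂ)) _ hD0 hDi' ?_
          filter_upwards [hstep, hpart] with y hy hy2 h1 h2
          have h3 := hin' y h1 h2
          obtain ⟨⟨s'', hs'', h4⟩, _⟩ := hy2 (hrange' y h3).1 (hrange' y h3).2
          obtain ⟨g1, g2⟩ := lr_inI h4
          have h5 := ball_mass hLD hB' h1 h2
          rw [← hss, ← hs''] at h5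
          have h6 : Zn (S.pf t f s''.1) (le S t s'') (ri S t s'') (2 * r) y := by
            refine zone2 hLD hr h5 hZ ?_
            by_cases h7 : s'' = s
            · exact Or.inl h7
            · right
              rintro ⟨h8, h9⟩
              rw [g1] at h8
              rw [g2] at h9
              exact h7 (S.entry_unique hs'' ⟨h8, h9⟩ hI)
          have h7 := hLay.zone s'' y (by rw [g1]; exact h4.1) (by rw [g2]; exact h4.2) h6
          have h8 := hy s'' s' (hs''.trans hss) h4 h3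
          rw [h7, zero_sub, abs_neg, abs_of_nonneg (hLay.nonneg s' y), hs''] at h8
          have h9 : y ∈ Es S t θ s.1 := ⟨s'', hs'', Or.inl h4, by rw [h7]; exact one_pos⟩
          unfold DD
          rw [indicator_of_mem h9, Pi.one_apply, mul_one, Complex.norm_real, Real.norm_eq_abs,
            abs_of_nonneg (hLay.nonneg s' y)]
          exact h8
        linarith
    · by_cases hZ' : Zn (S.pf t f s'.1) (le S t s') (ri S t s') r x
      · -- only `s'`
        have k2 := z1 L θ hL hLay s' x hx1' hx2' hZ'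
        rw [k2, sub_zero]
        have k3 : ‖av (Rd S t f r s) (fun y => (θ s y : ℂ)) x‖ ≤
            2 * ((Rd S t f r s x)⁻¹ * ∫ y in Ioo (x - 3 / 4 * Rd S t f r s x)
            (x + 3 / 4 * Rd S t f r s x), DD S t f L θ s.1 y) := by
          refine av_bound hB.pos (fun y => (θ s y : ℂ)) _ hD0 hDi ?_
          filter_upwards [hstep, hpart] with y hy hy2 h1 h2
          have h3 := hin y h1 h2
          obtain ⟨_, s'', hs'', h4⟩ := hy2 (hrange y h3).1 (hrange y h3).2
          obtain ⟨g1, g2⟩ := lr_inJ h4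
          have h5 := ball_mass hLD hB h1 h2
          rw [← hs''] at h5
          have h6 : Zn (S.pf t f s''.1) (le S t s'') (ri S t s'') (2 * r) y := by
            refine zone2 hLD hr h5 hZ' ?_
            by_cases h7 : s'' = s'
            · exact Or.inl h7
            · right
              rintro ⟨h8, h9⟩
              rw [g1] at h8
              rw [g2] at h9
              exact h7 (S.exit_unique (hs''.trans hss) ⟨h8, h9⟩ hJ)
          have h7 := hLay.zone s'' y (by rw [g1]; exact h4.1) (by rw [g2]; exact h4.2) h6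
          have h8 := hy s s'' hs''.symm h3 h4
          rw [h7, sub_zero, abs_of_nonneg (hLay.nonneg s y)] at h8
          have h9 : y ∈ Es S t θ s.1 := ⟨s'', hs'', Or.inr h4, by rw [h7]; exact one_pos⟩
          unfold DD
          rw [indicator_of_mem h9, Pi.one_apply, mul_one, Complex.norm_real, Real.norm_eq_abs,
            abs_of_nonneg (hLay.nonneg s y)]
          exact h8
        linarith
      · -- none
        have hRR := z2 s s' hss x hI hJ hZ hZ'
        have hint : ∀ a : Side n, IntegrableOn (fun v : ℝ => ((1 - |v| : ℝ) : ℂ) *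
            (θ a (x + Rd S t f r s x / 2 * v) : ℂ)) (Ioo (-1 : ℝ) 1) := by
          intro a
          have h1 : IntegrableOn (fun _ : ℝ => (1 : ℝ)) (Ioo (-1 : ℝ) 1) :=
            integrableOn_const (by simp)
          refine h1.mono' ?_ ?_
          · refine Measurable.aestronglyMeasurable ?_
            refine Measurable.mul ?_ ?_
            · exact Complex.measurable_ofReal.comp (measurable_const.sub measurable_id.abs)
            · refine Complex.measurable_ofReal.comp ((hLay.meas a).comp ?_)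
              exact measurable_const.add (measurable_const.mul measurable_id)
          · rw [ae_restrict_iff' measurableSet_Ioo]
            refine Eventually.of_forall fun v hv => ?_
            have h2 : |v| ≤ 1 := abs_le.2 ⟨hv.1.le, hv.2.le⟩
            rw [norm_mul, Complex.norm_real, Complex.norm_real, Real.norm_eq_abs,
              Real.norm_eq_abs, abs_of_nonneg (by linarith), abs_of_nonneg (hLay.nonneg a _)]
            have h3 := hLay.le_one a (x + Rd S t f r s x / 2 * v)
            have h4 := hLay.nonneg a (x + Rd S t f r s x / 2 * v)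
            have h5 := abs_nonneg v
            nlinarith
        have e1 : av (Rd S t f r s) (fun y => (θ s y : ℂ)) x -
            av (Rd S t f r s') (fun y => (θ s' y : ℂ)) x =
            ∫ v in Ioo (-1 : ℝ) 1, ((1 - |v| : ℝ) : ℂ) *
              (fun y => ((θ s y : ℂ) - (θ s' y : ℂ))) (x + Rd S t f r s x / 2 * v) := by
          unfold av
          rw [← hRR, ← integral_sub (hint s) (hint s')]
          refine integral_congr_ae (Eventually.of_forall fun v => ?_)
          simp only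
          ring
        rw [e1]
        have k3 : ‖∫ v in Ioo (-1 : ℝ) 1, ((1 - |v| : ℝ) : ℂ) *
              (fun y => ((θ s y : ℂ) - (θ s' y : ℂ))) (x + Rd S t f r s x / 2 * v)‖ ≤
            2 * ((Rd S t f r s x)⁻¹ * ∫ y in Ioo (x - 3 / 4 * Rd S t f r s x)
            (x + 3 / 4 * Rd S t f r s x), DD S t f L θ s.1 y) := by
          refine av_bound hB.pos (fun y => ((θ s y : ℂ) - (θ s' y : ℂ))) _ hD0 hDi ?_
          filter_upwards [hstep] with y hy h1 h2
          have h3 := hin y h1 h2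
          have h4 := hin' y (by rw [← hRR]; exact h1) (by rw [← hRR]; exact h2)
          have h5 := hy s s' hss h3 h4
          show ‖(θ s y : ℂ) - (θ s' y : ℂ)‖ ≤ _
          rw [← Complex.ofReal_sub, Complex.norm_real, Real.norm_eq_abs]
          by_cases hE : y ∈ Es S t θ s.1
          · unfold DD
            rw [indicator_of_mem hE, Pi.one_apply, mul_one]
            exact h5
          · have h6 : θ s y = 1 := by
              by_contra h7
              exact hE ⟨s, rfl, Or.inl h3, lt_of_le_of_ne (hLay.le_one s y) h7⟩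
            have h8 : θ s' y = 1 := by
              by_contra h7
              exact hE ⟨s', hss.symm, Or.inr h4, lt_of_le_of_ne (hLay.le_one s' y) h7⟩
            rw [h6, h8, sub_self, abs_zero]
            exact hD0 y
        linarith
  refine claim.trans ?_
  have m1 := add_le_add (mul_le_mul_of_nonneg_left hDle (show (0 : ℝ) ≤ 2 by norm_num))
    (mul_le_mul_of_nonneg_left hDle' (show (0 : ℝ) ≤ 2 by norm_num))
  refine m1.trans ?_
  set A := f s.1 x * fa (Rd S t f r s) ((Es S t θ s.1).indicator 1) x +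
        fa (Rd S t f r s) (fun y => |f s.1 y - f s.1 x|) x with hA
  set A' := f s.1 x * fa (Rd S t f r s') ((Es S t θ s.1).indicator 1) x +
        fa (Rd S t f r s') (fun y => |f s.1 y - f s.1 x|) x with hA'
  have e2 : f s.1 x * (fa (Rd S t f r s) ((Es S t θ s.1).indicator 1) x +
            fa (Rd S t f r s') ((Es S t θ s.1).indicator 1) x) +
          (fa (Rd S t f r s) (fun y => |f s.1 y - f s.1 x|) x +
            fa (Rd S t f r s') (fun y => |f s.1 y - f s.1 x|) x) = A + A' := by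
    rw [hA, hA']
    ring
  rw [e2]
  have hfa : ∀ (a : Side n) (g : ℝ → ℝ), (∀ y, 0 ≤ g y) → 0 < Rd S t f r a x →
      0 ≤ fa (Rd S t f r a) g x := fun a g hg ha =>
    mul_nonneg (inv_nonneg.2 ha.le) (integral_nonneg hg)
  have hA0 : 0 ≤ A := add_nonneg (mul_nonneg (hLD.nonneg _ _)
    (hfa s _ (ind_nonneg _) hB.pos)) (hfa s _ (fun _ => abs_nonneg _) hB.pos)
  have hA0' : 0 ≤ A' := add_nonneg (mul_nonneg (hLD.nonneg _ _)
    (hfa s' _ (ind_nonneg _) hB'.pos)) (hfa s' _ (fun _ => abs_nonneg _) hB'.pos)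
  have e3 : 2 * (7 / 4 / L * ch S t s.1 x * A) + 2 * (7 / 4 / L * ch S t s.1 x * A') =
      7 / 8 * (4 / L * ch S t s.1 x * (A + A')) := by ring
  rw [e3]
  have : 0 ≤ 4 / L * ch S t s.1 x * (A + A') := by positivity
  linarith

end Pool.Agent.H68.BQ
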